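import Pool.Agent.H.MP_13a01f_pr.G

set_option autoImplicit false
open MeasureTheory Set Real Pointwise
open scoped ENNReal NNReal ContDiff

namespace Pool.Agent.Results.MP_13a01f_pr.No

def LogConcave {n : ℕ} (μ : Measure (EuclideanSpace ℝ (Fin n))) : Prop :=
  ∀ A B : Set (EuclideanSpace ℝ (Fin n)), IsCompact A → IsCompact B → A.Nonempty → B.Nonempty →
    ∀ t ∈ Icc (0 : ℝ) 1, μ A ^ t * μ B ^ (1 - t) ≤ μ (t • A + (1 - t) • B)

noncomputable def Ent {n : ℕ} (μ : Measure (EuclideanSpace ℝ (Fin n)))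
    (g : EuclideanSpace ℝ (Fin n) → ℝ) : ℝ :=
  ∫ x, g x * log (g x) ∂μ - (∫ x, g x ∂μ) * log (∫ x, g x ∂μ)

/-- the log-Sobolev constant -/
noncomputable def cLSI {n : ℕ} (μ : Measure (EuclideanSpace ℝ (Fin n))) : ℝ≥0∞ :=
  ⨅ (C : ℝ≥0) (_ : ∀ f : EuclideanSpace ℝ (Fin n) → ℝ, ContDiff ℝ ∞ f →
    Ent μ (fun x => f x ^ 2) ≤ C * ∫ x, ‖gradient f x‖ ^ 2 ∂μ), (C : ℝ≥0∞)

theorem result (C : ℝ≥0) : ∃ (n : ℕ) (μ : Measure (EuclideanSpace ℝ (Fin n))) (h : ℝ),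
    1 ≤ n ∧ 0 < h ∧ IsProbabilityMeasure μ ∧ LogConcave μ ∧ (∃ K, IsCompact K ∧ μ Kᶜ = 0) ∧
    μ ≪ volume ∧ ∫ x, x ∂μ = 0 ∧
    C * cLSI μ < cLSI (μ.tilted fun x => -‖x‖ ^ 2 / (2 * h)) := by
  obtain ⟨n, μ, c, a, b, h1, h2, h3, h4, h5, h6, h7, h8⟩ := H.MP_13a01f_pr.final C C.2
  have eg : ∀ (f : EuclideanSpace ℝ (Fin (n + 1)) → ℝ) x, ‖gradient f x‖ = ‖fderiv ℝ f x‖ :=
    fun f x => LinearIsometryEquiv.norm_map _ _
  obtain ⟨hP, K, hK, eK⟩ := id h1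
  refine ⟨n + 1, μ, 1, Nat.le_add_left _ _, one_pos, hP, h2, ⟨K, hK, ?_⟩, h3, h4, ?_⟩
  · rw [← eK, Measure.restrict_apply hK.measurableSet.compl, compl_inter_self, measure_empty]
  lift a to ℝ≥0 using h5
  lift b to ℝ≥0 using (mul_nonneg C.2 a.2).trans h6.le
  have u : cLSI μ ≤ a := iInf₂_le a fun f hf => by
    simp only [eg]
    exact H.MP_13a01f_pr.unpos h1 a.2 h7 f (hf.of_le (by simp))
  have l : (b : ℝ≥0∞) ≤ cLSI (μ.tilted fun x => -‖x‖ ^ 2 / (2 * 1)) := le_iInf₂ fun D hD => by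
    have := (H.MP_13a01f_pr.tilt_cs hK eK (IsProbabilityMeasure.ne_zero μ)
      (f := fun x => -‖x‖ ^ 2 / (2 * 1)) (by fun_prop)).1
    have d : ∀ x : EuclideanSpace ℝ (Fin (n + 1)), HasFDerivAt (fun x => x 0 + c + 1)
        (EuclideanSpace.proj (𝕜 := ℝ) (0 : Fin (n + 1))) x := fun x =>
      ((EuclideanSpace.proj (𝕜 := ℝ) (0 : Fin (n + 1))).hasFDerivAt.add_const c).add_const 1
    have h9 := hD (fun x => x 0 + c + 1) (by fun_prop)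
    have h10 : ‖(EuclideanSpace.proj (𝕜 := ℝ) (0 : Fin (n + 1)) :
        EuclideanSpace ℝ (Fin (n + 1)) →L[ℝ] ℝ)‖ ≤ 1 :=
      ContinuousLinearMap.opNorm_le_bound _ zero_le_one fun x => by
        simpa using PiLp.norm_apply_le x 0
    simp only [eg, (d _).fderiv, integral_const, probReal_univ, one_smul] at h9
    exact_mod_cast (h8.trans h9).trans
      (mul_le_of_le_one_right D.2 (pow_le_one₀ (norm_nonneg _) h10))
  refine ((mul_le_mul_right u _).trans_lt ?_).trans_le l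
  exact_mod_cast h6

end Pool.Agent.Results.MP_13a01f_pr.No
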